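import Pool.Agent.H535.AW.ResB

set_option autoImplicit false

/-!
# Arbitrary weights on the primes beyond the level one half

Let `u` be an ARBITRARY complex weight on the primes of an interval `(Y, Y + X]` (primes `≤ √X`
excluded).  For moduli `k ∈ (K, 2K]` with `√X (log X) ^ C ≤ K ≤ X` the mean square of the errors
of `u` in the reduced residue classes, with respect to ANY main terms `c k`, is on average over `k` at
least `(1 - ε) log (K ^ 2 / X) / log X` times the mean square `∑ |u| ^ 2`.  So no subset of the primes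
and no weight on them, in no interval of length `X`, is better distributed in arithmetic progressions
to moduli `X ^ θ`, `θ > 1 / 2`, than a proportion `2 θ - 1` of the random size.

For `u = Λ`, `Y = 0` and `K ≥ X ^ (1 / 2 + δ)` this is the theorem of Harper and Soundararajan.  Their
argument used the large sieve inequality for the primes; here the arcs around the
rationals with denominators at most `X / K` are shown to contain at most a proportion
`1 - (1 - ε) log (K ^ 2 / X) / log X` of the `L^2` mass of the exponential sum of every weight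
supported on a set sifted by one class for every prime up to `√X`.
-/

open Finset

namespace Pool.Agent.Results.MP_00e23e_nt.ArbitraryWeights

/-- the sum of the weights `u n` over the integers `Y < n ≤ Y + X` with `n ≡ a (mod k)` -/
noncomputable def inClass (u : ℕ → ℂ) (Y X k a : ℕ) : ℂ :=
  ∑ n ∈ (Ioc Y (Y + X)).filter (fun n => n ≡ a [MOD k]), u n

/-- the sum over the reduced residue classes modulo `k` of the squares of the errors with respect
to the main term `c` -/
noncomputable def errors (u : ℕ → ℂ) (Y X k : ℕ) (c : ℂ) : ℝ :=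
  ∑ a ∈ (range k).filter (fun a => Nat.Coprime a k), ‖inClass u Y X k a - c‖ ^ 2

theorem errors_eq (u : ℕ → ℂ) (Y X k : ℕ) (c : ℂ) : errors u Y X k c =
    ∑ a ∈ (range k).filter (fun a => Nat.Coprime k a),
      ‖∑ n ∈ (Ioc Y (Y + X)).filter (fun n => n % k = a), u n - c‖ ^ 2 := by
  unfold errors inClass
  have h1 : (range k).filter (fun a => Nat.Coprime a k) = (range k).filter (fun a => Nat.Coprime k a) :=
    filter_congr fun a _ => Nat.coprime_comm
  rw [h1]
  refine sum_congr rfl fun a ha => ?_
  rw [mem_filter, mem_range] at ha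
  have h2 : (Ioc Y (Y + X)).filter (fun n => n ≡ a [MOD k]) = (Ioc Y (Y + X)).filter (fun n => n % k = a) := by
    refine filter_congr fun n _ => ?_
    show n % k = a % k ↔ n % k = a
    rw [Nat.mod_eq_of_lt ha.1]
  rw [h2]

/-- **Arbitrary weights on the primes of an interval have large errors beyond the level one half.** -/
theorem result (ε : ℝ) (hε : 0 < ε) (hε1 : ε ≤ 1) : ∃ C : ℝ, ∃ X₀ : ℕ, ∀ X : ℕ, X₀ ≤ X →
    ∀ K : ℕ, √X * Real.log X ^ C ≤ K → K ≤ X → ∀ (Y : ℕ) (u : ℕ → ℂ),
    (∀ n : ℕ, Y < n → n ≤ Y + X → u n ≠ 0 → n.Prime ∧ X < n ^ 2) → ∀ c : ℕ → ℂ,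
    (1 - ε) * (Real.log ((K : ℝ) ^ 2 / X) / Real.log X) * K * ∑ n ∈ Ioc Y (Y + X), ‖u n‖ ^ 2 ≤
      ∑ k ∈ Ioc K (2 * K), errors u Y X k (c k) := by
  obtain ⟨C, X₀, h⟩ := Pool.Agent.H535.AW.prime_var ε hε hε1
  refine ⟨C, X₀, fun X hX K hK hKX Y u hu c => ?_⟩
  rw [sum_congr rfl fun k _ => errors_eq u Y X k (c k)]
  exact h X hX K hK hKX Y u (fun n hn hne => hu n (mem_Ioc.1 hn).1 (mem_Ioc.1 hn).2 hne) c

end Pool.Agent.Results.MP_00e23e_nt.ArbitraryWeights
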