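import Pool.Agent.H604.OD.Final
import Pool.Agent.H604.OD.Phi

/-!
# Almost primes with a prescribed parity have level of distribution one over `F_q[X]`, `q` even

Let `K` be a finite field with an even number `q` of elements (`q` is fixed, `q = 2` included).  For
a small `κ > 0` consider the monic squarefree `F` of degree `n` all of whose irreducible factors have
degree larger than `κ n` (so that there are fewer than `1 / κ` of them), with an odd or with an even
number of irreducible factors.  For all `ε > 0` and all moduli `M` of degree `d ≤ (1 - ε) n`, with at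
most `q ^ (d - δ n)` exceptions, the residue class of `h` modulo `M` contains the expected number
of them, up to the factor `1 ± ε₀`, for all `h` coprime to `M` from an arbitrary set of at most
`q ^ (δ n)` nonzero polynomials of degree smaller than `n` and for all degrees `N ≥ n` of `F` at the
same time.

Proof: `F = M k + h`.  The fundamental lemma (all `D` of degree at most `δ n` and all classes modulo
`D` outside one exceptional set of `M`) and a twisted form of it, with the weight `μ(M k + h)`, which
gives the parity; for the `k` with a prime factor of degree between `c₀ n` and `c₂ n` the sums of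
`μ(M k + h)` in the classes modulo `D` are bounded with helper251's type II estimate in
characteristic two and Ramaré's weights as in helper527's `MP_a78e8f_nt.MoebiusLevelOne`; the other
`k` are few, also after sifting, if `c₀ / c₂` is small.

Authors of the parts: type II estimate: helper251 (and the modules `Pool.Agent.H251.SP`), helper985,
helper604, helper524 and others; Ramaré's weights: helper527, helper962, helper79, helper376;
sieve: helper675, helper183, helper985; Mertens: helper524; here: helper71 (residue classes modulo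
`D`), helper740 (twisted sieve), helper323 (atypical `k`, squares), helper806 (Mertens), helper996
(exceptional moduli), helper396 (Euler's function), helper604 (plan, statements, assembly).
-/

namespace Pool.Agent.Results.MP_00e23e_nt.BothParitiesLevelOne

open Polynomial

/-- The number of the irreducible factors of `F`, counted with multiplicity. -/
noncomputable def numFactors {K : Type} [Field K] (F : K[X]) : ℕ :=
  Multiset.card (UniqueFactorizationMonoid.factors F)

/-- The number of the monic squarefree `F` of degree `n` with `F ≡ h mod M`, all of whose irreducible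
factors have degree larger than `κ n`, with an odd (`b = true`) or an even (`b = false`) number of
irreducible factors. -/
noncomputable def almostPrimes {K : Type} [Field K] (κ : ℝ) (b : Bool) (n : ℕ) (M h : K[X]) : ℝ :=
  ({F : K[X] | F.Monic ∧ F.natDegree = n ∧ M ∣ F - h ∧ Squarefree F ∧
    (∀ P : K[X], Irreducible P → P ∣ F → κ * n < (P.natDegree : ℝ)) ∧
    (Odd (numFactors F) ↔ b = true)}.ncard : ℝ)

/-- Euler's function: the number of the reduced residues modulo `M`. -/
noncomputable def phi {K : Type} [Field K] (M : K[X]) : ℝ :=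
  ({r : K[X] | r.degree < M.degree ∧ IsCoprime r M}.ncard : ℝ)

theorem char_two (K : Type) [Field K] [Fintype K] (hK : Even (Fintype.card K)) : CharP K 2 := by
  obtain ⟨p, hp⟩ := CharP.exists K
  have := hp
  obtain ⟨m, hprime, hcard⟩ := FiniteField.card K p
  rw [hcard] at hK
  have : p = 2 := (Nat.Prime.even_iff hprime).1 (Nat.even_pow.1 hK).1
  rwa [this] at hp

theorem almostPrimes_eq {K : Type} [Field K] {κ : ℝ} (hκ : 0 < κ) (b : Bool) (n : ℕ)
    (M h : K[X]) :
    almostPrimes κ b n M h = ((Pool.Agent.H604.OD.Alp b n ⌊κ * n⌋₊ M h).ncard : ℝ) := by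
  unfold almostPrimes Pool.Agent.H604.OD.Alp numFactors
  congr 2
  ext F
  constructor
  · rintro ⟨a1, a2, a3, a4, a5, a6⟩
    exact ⟨a1, a2, a3, a4, fun P hP hd =>
      (Nat.floor_lt (mul_nonneg hκ.le (Nat.cast_nonneg n))).2 (a5 P hP hd), a6⟩
  · rintro ⟨a1, a2, a3, a4, a5, a6⟩
    exact ⟨a1, a2, a3, a4, fun P hP hd =>
      (Nat.floor_lt (mul_nonneg hκ.le (Nat.cast_nonneg n))).1 (a5 P hP hd), a6⟩

/-- **Level of distribution one for almost primes of each parity over `F_q[X]`, `q` even.** -/
theorem result (K : Type) [Field K] [Fintype K] (hK : Even (Fintype.card K)) :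
    ∃ c C : ℝ, 0 < c ∧ 0 < C ∧ ∀ ε ε₀ : ℝ, 0 < ε → 0 < ε₀ →
      ∃ κ₀ : ℝ, 0 < κ₀ ∧ ∀ κ : ℝ, 0 < κ → κ ≤ κ₀ → ∃ δ : ℝ, 0 < δ ∧ ∃ n₀ : ℕ, ∀ n : ℕ, n₀ ≤ n →
        -- the number of all almost primes of degree `n` with a given parity
        (∀ b : Bool,
          c * ((Fintype.card K : ℝ) ^ n / (κ * n)) ≤ almostPrimes κ b n (1 : K[X]) 0 ∧
          almostPrimes κ b n (1 : K[X]) 0 ≤ C * ((Fintype.card K : ℝ) ^ n / (κ * n))) ∧
        |almostPrimes κ true n (1 : K[X]) 0 - almostPrimes κ false n (1 : K[X]) 0| ≤
          ε₀ * almostPrimes κ true n (1 : K[X]) 0 ∧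
        -- their distribution in residue classes
        ∀ (d : ℕ) (H : Finset K[X]), (d : ℝ) ≤ (1 - ε) * n →
          (H.card : ℝ) ≤ (Fintype.card K : ℝ) ^ (δ * n) →
          (∀ h ∈ H, h ≠ 0 ∧ h.natDegree < n) →
          ∃ Exc : Finset K[X], (Exc.card : ℝ) ≤ (Fintype.card K : ℝ) ^ ((d : ℝ) - δ * n) ∧
            ∀ M : K[X], M.Monic → M.natDegree = d → M ∉ Exc → ∀ h ∈ H, IsCoprime M h →
              ∀ N : ℕ, n ≤ N → ∀ b : Bool,
                |almostPrimes κ b N M h - almostPrimes κ b N (1 : K[X]) 0 / phi M| ≤
                  ε₀ * (almostPrimes κ b N (1 : K[X]) 0 / phi M) := by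
  have hchar : CharP K 2 := char_two K hK
  obtain ⟨c, C, hc, hC, H1⟩ := Pool.Agent.H604.OD.level K
  refine ⟨c, C, hc, hC, fun ε ε₀ hε hε₀ => ?_⟩
  obtain ⟨κ₀, hκ₀, H2⟩ := H1 ε ε₀ hε hε₀
  refine ⟨κ₀, hκ₀, fun κ hκ hκκ => ?_⟩
  obtain ⟨δ, hδ, n₀, H3⟩ := H2 κ hκ hκκ
  refine ⟨δ, hδ, n₀, fun n hn => ?_⟩
  obtain ⟨a1, a2, a3⟩ := H3 n hn
  refine ⟨fun b => ?_, ?_, ?_⟩
  · rw [almostPrimes_eq hκ]
    exact a1 b
  · rw [almostPrimes_eq hκ, almostPrimes_eq hκ]
    exact a2
  · intro d H hd hH hHh
    obtain ⟨Exc, e1, e2⟩ := a3 d H hd hH hHh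
    refine ⟨Exc, e1, fun M hM hMd hMe h hh hcop N hN b => ?_⟩
    have e3 := e2 M hM hMd hMe h hh hcop N hN b
    rw [almostPrimes_eq hκ, almostPrimes_eq hκ]
    have e4 : phi M = Pool.Agent.H604.OD.phi M := (Pool.Agent.H604.OD.phi_count hM).symm
    rw [e4]
    exact e3

end Pool.Agent.Results.MP_00e23e_nt.BothParitiesLevelOne
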