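import Pool.Agent.H560.AR.Final

/-!
# Products of an odd number of large primes in all classes of all squarefree moduli of level `2 / 3`,
over `F_q[X]`, `q` even
-/

namespace Pool.Agent.Results.MP_00e23e_nt.BothParitiesLevelTwoThirds

open Polynomial

/-- The number of the irreducible factors of `F`, counted with multiplicity. -/
noncomputable def numFactors {K : Type} [Field K] (F : K[X]) : ℕ :=
  Multiset.card (UniqueFactorizationMonoid.factors F)

/-- The monic squarefree `f` of degree `n` with `f ≡ a mod M` which have no irreducible factor of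
degree at most `y`: products of distinct irreducible polynomials of degree larger than `y`. -/
def Rough {K : Type} [Field K] (n : ℕ) (M a : K[X]) (y : ℝ) : Set K[X] :=
  {f | f.Monic ∧ f.natDegree = n ∧ M ∣ f - a ∧ Squarefree f ∧
    ∀ P : K[X], Irreducible P → P ∣ f → y < (P.natDegree : ℝ)}

/-- Let `K` be a finite field with an even number `q` of elements and `θ < 2/3`. There are
`κ, c > 0` such that for all large `n`, all squarefree monic `M` of degree at most `θ n` and all `a`
coprime to `M`, the residue class of `a` modulo `M` contains at least `c q ^ (n - deg M) / n`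
products of an odd number, and at least `c q ^ (n - deg M) / n` products of an even number, of
distinct monic irreducible polynomials of degree larger than `κ n`, of total degree `n`. -/
theorem result (K : Type) [Field K] [Fintype K] [CharP K 2] (θ : ℝ) (hθ : θ < 2 / 3) :
    ∃ κ c : ℝ, 0 < κ ∧ 0 < c ∧ ∃ n₀ : ℕ, ∀ n : ℕ, n₀ ≤ n → ∀ M a : K[X], M.Monic → Squarefree M →
      (M.natDegree : ℝ) ≤ θ * n → IsCoprime a M →
        c * (Fintype.card K : ℝ) ^ (n - M.natDegree) / n ≤
          {f ∈ Rough n M a (κ * n) | Odd (numFactors f)}.ncard ∧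
        c * (Fintype.card K : ℝ) ^ (n - M.natDegree) / n ≤
          {f ∈ Rough n M a (κ * n) | Even (numFactors f)}.ncard := by
  obtain ⟨κ, c, hκ, hc, n₀, hn₀⟩ := Pool.Agent.H560.AR.almost_top K θ hθ
  refine ⟨κ, c, hκ, hc, n₀, fun n hn M a hM hMs hMθ ha => ?_⟩
  obtain ⟨h1, h2⟩ := hn₀ n hn M a hM hMs hMθ ha
  have key : ∀ p : K[X] → Prop, {f ∈ Rough n M a (κ * n) | p f} =
      {f : K[X] | f.Monic ∧ f.natDegree = n ∧ M ∣ f - a ∧ Squarefree f ∧ p f ∧
        ∀ P : K[X], Irreducible P → P ∣ f → κ * n < (P.natDegree : ℝ)} := by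
    intro p
    ext f
    constructor
    · rintro ⟨⟨a1, a2, a3, a4, a5⟩, a6⟩
      exact ⟨a1, a2, a3, a4, a6, a5⟩
    · rintro ⟨a1, a2, a3, a4, a6, a5⟩
      exact ⟨⟨a1, a2, a3, a4, a5⟩, a6⟩
  rw [key (fun f => Odd (numFactors f)), key (fun f => Even (numFactors f))]
  exact ⟨h1, h2⟩

end Pool.Agent.Results.MP_00e23e_nt.BothParitiesLevelTwoThirds
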