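import Pool.Agent.H535.BF.Sum

set_option autoImplicit false

/-!
# The Elliott–Halberstam conjecture in the random sieve model of Banks, Ford and Tao

For every prime `q` a residue class `a q` modulo `q` is drawn uniformly and independently. The random primes are
the integers `n ≥ 3` that are in none of the classes `a q mod q` with `q ≤ zBFT n`, where the sieving limit `zBFT n` is
the largest `m` with `∏_{q ≤ m} (1 - 1 / q)⁻¹ ≤ log n`. The classes modulo `d` that are not sieved by the primes dividing `d`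
take the place of the reduced classes; there are `φ(d)` of them. As in the problem
`E(x; d, l) = π(x; d, l) - li x / φ(d)`, `li x = ∫_2^x dt / log t`.

The theorem: almost surely
* (1) the inequality of Elliott and Halberstam, with the maxima over the classes `l` and over `y ≤ x` inside the sum, holds for
  every exponent `α < 1`, with a power saving: `∑_{d ≤ x^α} max_{l, y ≤ x} |E(y; d, l)| ≤ C x^((1 + α) / 2 + ε)`;
* (2) the exponent `(1 + α) / 2` is the correct one for every `1 / 2 < α < 1`: the same sum is at least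
  `x^((1 + α) / 2) / (32 √(log x))` for all large `x`;
* (3) `|E(y; d, l)| ≤ C x^ε √(x / d)` for all `x ≥ 2`, `y ≤ x`, `d ≤ x` and all the classes `l` (the random analogue of
  Montgomery's conjecture);
* (4) and this is sharp for every single modulus `x^(1/2+ε) < d < x`: there are `l` and `y ≤ x` with
  `|E(y; d, l)| ≥ √(x / (d log x)) / 8`.

The maxima are expressed by arbitrary functions `l d`, `y d` of the modulus.
-/

open MeasureTheory ProbabilityTheory Filter Topology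

namespace Pool.Agent.Results.MP_00e23e_nt.RandomSieveLevelOne

/-- `V m = ∏ (1 - 1 / q)` over the primes `q ≤ m` -/
noncomputable def V (m : ℕ) : ℝ := ∏ q ∈ (Finset.range (m + 1)).filter Nat.Prime, (1 - 1 / (q : ℝ))

/-- the classes `a q` are independent, and `a q` is uniform on `0, …, q - 1` for every prime `q` -/
structure Model {Ω : Type} [MeasurableSpace Ω] (P : Measure Ω) (a : ℕ → Ω → ℕ) : Prop where
  measurable : ∀ q, Measurable (a q)
  independent : iIndepFun a P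
  uniform : ∀ q, q.Prime → ∀ r < q, P.real {ω | a q ω = r} = 1 / q

/-- the sieving limit of Banks, Ford and Tao: the largest `m` with `∏_{q ≤ m} (1 - 1 / q)⁻¹ ≤ log n` -/
noncomputable def zBFT (n : ℕ) : ℕ := sSup {m : ℕ | (V m)⁻¹ ≤ Real.log n}

/-- the set of the random primes -/
def R {Ω : Type} (a : ℕ → Ω → ℕ) (ω : Ω) : Set ℕ :=
  {n | 3 ≤ n ∧ ∀ q ≤ zBFT n, q.Prime → n % q ≠ a q ω}

/-- the classes `l` modulo `d` that are not sieved by the primes dividing `d` -/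
def Allowed {Ω : Type} (a : ℕ → Ω → ℕ) (ω : Ω) (d : ℕ) : Finset ℕ :=
  (Finset.range d).filter fun l => ∀ p ∈ d.primeFactors, l % p ≠ a p ω

/-- the logarithmic integral -/
noncomputable def li (x : ℝ) : ℝ := ∫ t in (2 : ℝ)..x, 1 / Real.log t

open Classical in
/-- `π(x; d, l)`: the number of the random primes `n ≤ x` with `n ≡ l mod d` -/
noncomputable def piR {Ω : Type} (a : ℕ → Ω → ℕ) (ω : Ω) (x : ℝ) (d l : ℕ) : ℝ :=
  ((Finset.Icc 1 ⌊x⌋₊).filter (fun n => n ∈ R a ω ∧ n % d = l)).card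

/-- `E(x; d, l)` -/
noncomputable def E {Ω : Type} (a : ℕ → Ω → ℕ) (ω : Ω) (x : ℝ) (d l : ℕ) : ℝ :=
  piR a ω x d l - li x / Nat.totient d

theorem result :
    (∃ (Ω : Type) (_ : MeasurableSpace Ω) (P : Measure Ω) (a : ℕ → Ω → ℕ), Model P a) ∧
    Tendsto (fun n => V (zBFT n) * Real.log n) atTop (𝓝 1) ∧
    ∀ (Ω : Type) [MeasurableSpace Ω] (P : Measure Ω) (a : ℕ → Ω → ℕ), Model P a →
      ∀ᵐ ω ∂P, (∀ d : ℕ, 1 ≤ d → (Allowed a ω d).card = Nat.totient d) ∧
        -- (1) the inequality of Elliott and Halberstam for every exponent below `1`, with a power saving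
        (∀ α ε : ℝ, α < 1 → 0 < ε → ∃ C : ℝ, ∀ x : ℝ, 2 ≤ x → ∀ (l : ℕ → ℕ) (y : ℕ → ℝ),
          (∀ d, 1 ≤ d → l d ∈ Allowed a ω d) → (∀ d, 2 ≤ y d ∧ y d ≤ x) →
            ∑ d ∈ Finset.Icc 1 ⌊x ^ α⌋₊, |E a ω (y d) d (l d)| ≤ C * x ^ ((1 + α) / 2 + ε)) ∧
        -- (2) the exponent is sharp
        (∀ α : ℝ, 1 / 2 < α → α < 1 → ∃ x₀ : ℝ, ∀ x : ℝ, x₀ ≤ x → ∃ (l : ℕ → ℕ) (y : ℕ → ℝ),
          (∀ d, 1 ≤ d → l d ∈ Allowed a ω d) ∧ (∀ d, 2 ≤ y d ∧ y d ≤ x) ∧
            x ^ ((1 + α) / 2) / (32 * √(Real.log x)) ≤ ∑ d ∈ Finset.Icc 1 ⌊x ^ α⌋₊, |E a ω (y d) d (l d)|) ∧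
        -- (3) all the classes to all the moduli `d ≤ x`
        (∀ ε : ℝ, 0 < ε → ∃ C : ℝ, ∀ x y : ℝ, 2 ≤ y → y ≤ x → ∀ d : ℕ, 1 ≤ d → (d : ℝ) ≤ x →
          ∀ l ∈ Allowed a ω d, |E a ω y d l| ≤ C * x ^ ε * √(x / d)) ∧
        -- (4) the bound is sharp for every modulus
        (∀ ε : ℝ, 0 < ε → ∃ x₀ : ℝ, ∀ x : ℝ, x₀ ≤ x → ∀ d : ℕ, x ^ (1 / 2 + ε) < d → (d : ℝ) < x →
          ∃ l ∈ Allowed a ω d, ∃ y : ℝ, 2 ≤ y ∧ y ≤ x ∧ 1 / 8 * √(x / (d * Real.log x)) ≤ |E a ω y d l|) := by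
  refine ⟨?_, Pool.Agent.T2H32.BF.z0_lim, ?_⟩
  · obtain ⟨Ω, i, P, a, h⟩ := Pool.Agent.T2H32.BF.exists_model
    exact ⟨Ω, i, P, a, h.measurable, h.independent, h.uniform⟩
  · intro Ω _ P a hmod
    have h : Pool.Agent.T2H32.BF.Model P a := ⟨hmod.measurable, hmod.independent, hmod.uniform⟩
    filter_upwards [Pool.Agent.T2H31.HV.main_all Ω P a h, Pool.Agent.H535.BF.core h] with ω h1 h2
    obtain ⟨hcard, hG⟩ := h1
    have hext := Pool.Agent.H535.BF.ext (fun q => a q ω) h2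
    have hlow := Pool.Agent.H535.BF.low (fun q => a q ω) hcard hG
    refine ⟨hcard, ?_, ?_, ?_, ?_⟩
    · intro α ε hα hε
      obtain ⟨C, hC, hC2⟩ := hext ε hε
      exact ⟨2 * C, fun x hx l y hl hy =>
        Pool.Agent.H535.BF.ehsum (fun q => a q ω) C ε hC hC2 α x hα.le hx l y hl hy⟩
    · intro α hα hα1
      exact eventually_atTop.1 (Pool.Agent.H535.BF.ehlow (fun q => a q ω) hcard hlow α hα hα1)
    · intro ε hε
      obtain ⟨C, hC, hC2⟩ := hext ε hε
      exact ⟨C, fun x y hy hyx d hd hdx l hl => hC2 x y d l hd hdx hy hyx hl⟩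
    · intro ε hε
      exact eventually_atTop.1 (hlow ε hε)

end Pool.Agent.Results.MP_00e23e_nt.RandomSieveLevelOne
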